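import Pool.Agent.Lib.MP_134bf7_pr.Cesaro

namespace Pool.Agent.Results.MP_134bf7_pr.CesaroMeans

open Finset Filter Topology Pool.Agent.Lib.MP_134bf7_pr.Cesaro

/-- `X σ k` is the number of sets of size `k` mapped onto themselves by `σ`. -/
def X {n : ℕ} (σ : Equiv.Perm (Fin n)) (k : ℕ) : ℕ :=
  ((Finset.univ : Finset (Finset (Fin n))).filter fun S => S.card = k ∧ S.image σ = S).card

/-- The mean of `ψ (X σ k)` for a uniformly random permutation `σ` of `n` points. -/
noncomputable def mean (ψ : ℝ → ℝ) (n k : ℕ) : ℝ :=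
  (∑ σ : Equiv.Perm (Fin n), ψ (X σ k)) / n.factorial

/-- The probability that a uniformly random permutation of `n` points fixes a `k`-set. -/
noncomputable def prob (n k : ℕ) : ℝ :=
  (Fintype.card {σ : Equiv.Perm (Fin n) // ∃ S : Finset (Fin n), S.card = k ∧ S.image σ = S} : ℝ) /
    n.factorial

lemma mean_eq (ψ : ℝ → ℝ) (n k : ℕ) : mean ψ n k = A ψ n k := rfl

lemma mean_const_sub (ψ : ℝ → ℝ) (c : ℝ) (n k : ℕ) :
    mean (fun x => c - ψ x) n k = c - mean ψ n k := by
  have h : ((n.factorial : ℝ)) ≠ 0 := by positivity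
  rw [mean, mean, Finset.sum_sub_distrib, Finset.sum_const, Finset.card_univ, Fintype.card_perm,
    Fintype.card_fin, nsmul_eq_mul, sub_div, mul_div_assoc, mul_comm, div_mul_cancel₀]
  exact h

lemma prob_eq (n k : ℕ) : prob n k = 1 - mean (fun x => max (1 - x) 0) n k := by
  classical
  have h : ((n.factorial : ℝ)) ≠ 0 := by positivity
  rw [prob, ← mean_const_sub, mean, Fintype.card_subtype, Finset.card_filter]
  push_cast
  congr 1
  refine Finset.sum_congr rfl fun σ _ => ?_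
  by_cases hS : ∃ S : Finset (Fin n), S.card = k ∧ S.image σ = S
  · rw [if_pos hS]
    obtain ⟨S, hS⟩ := hS
    have : 1 ≤ X σ k := Finset.card_pos.2 ⟨S, by simp [hS]⟩
    have h1 : (1 : ℝ) ≤ (X σ k : ℝ) := by exact_mod_cast this
    rw [max_eq_right (by linarith)]; ring
  · rw [if_neg hS]
    have : X σ k = 0 := by
      rw [X, Finset.card_eq_zero, Finset.filter_eq_empty_iff]
      intro S _ h'
      exact hS ⟨S, h'⟩
    rw [this]; simp

theorem result :
    (∀ (ψ : ℝ → ℝ), ConvexOn ℝ (Set.Ici 0) ψ → ∀ n k : ℕ, 1 ≤ k → k ≤ n →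
      (∑ i ∈ Finset.range k, mean ψ (n - (i + 1)) (k - (i + 1))) / k ≤ mean ψ n k) ∧
    (∀ p : ℕ → ℝ, (∀ k, Tendsto (fun n => prob n k) atTop (𝓝 (p k))) → ∀ k : ℕ, 1 ≤ k →
      p k ≤ (∑ j ∈ Finset.range k, p j) / k ∧
      (∑ j ∈ Finset.range (k + 1), p j) / (k + 1 : ℕ) ≤ (∑ j ∈ Finset.range k, p j) / k) := by
  have main : ∀ (ψ : ℝ → ℝ), ConvexOn ℝ (Set.Ici 0) ψ → ∀ n k : ℕ, 1 ≤ k → k ≤ n →
      (∑ i ∈ Finset.range k, mean ψ (n - (i + 1)) (k - (i + 1))) / k ≤ mean ψ n k := by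
    intro ψ hψ n k hk hkn
    have hconc : ConcaveOn ℝ (Set.Ici 0) (fun x => ψ 0 - ψ x) :=
      (concaveOn_const (ψ 0) (convex_Ici 0)).sub hψ
    have h := concave_ineq (fun x => ψ 0 - ψ x) (by simp) hconc hkn
    have e1 : ∀ a b, A (fun x => ψ 0 - ψ x) a b = ψ 0 - mean ψ a b := fun a b => by
      rw [← mean_const_sub, mean_eq]
    rw [e1] at h
    simp_rw [e1] at h
    rw [Finset.sum_sub_distrib, Finset.sum_const, Finset.card_range, nsmul_eq_mul] at h
    have hk' : (0 : ℝ) < k := by exact_mod_cast hk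
    rw [div_le_iff₀ hk']
    nlinarith
  refine ⟨main, ?_⟩
  intro p hp k hk
  have hk' : (0 : ℝ) < k := by exact_mod_cast hk
  have hψ : ConvexOn ℝ (Set.Ici 0) (fun x : ℝ => max (1 - x) 0) := by
    refine ConvexOn.sup ?_ (convexOn_const 0 (convex_Ici 0))
    exact (convexOn_const 1 (convex_Ici 0)).sub (concaveOn_id (convex_Ici 0))
  have hfin : ∀ n, k ≤ n → (k : ℝ) * prob n k ≤
      ∑ i ∈ Finset.range k, prob (n - (i + 1)) (k - (i + 1)) := by
    intro n hn
    have h := main _ hψ n k hk hn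
    rw [div_le_iff₀ hk'] at h
    simp_rw [prob_eq]
    rw [Finset.sum_sub_distrib, Finset.sum_const, Finset.card_range, nsmul_eq_mul]
    nlinarith
  have hlim : (k : ℝ) * p k ≤ ∑ i ∈ Finset.range k, p (k - (i + 1)) := by
    refine le_of_tendsto_of_tendsto ((hp k).const_mul (k : ℝ)) (tendsto_finsetSum _ fun i _ =>
      (hp (k - (i + 1))).comp (tendsto_sub_atTop_nat (i + 1))) ?_
    filter_upwards [eventually_ge_atTop k] with n hn
    exact hfin n hn
  have hre : ∑ i ∈ Finset.range k, p (k - (i + 1)) = ∑ j ∈ Finset.range k, p j := by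
    rw [← Finset.sum_range_reflect]
    refine Finset.sum_congr rfl fun i hi => ?_
    rw [Finset.mem_range] at hi
    congr 1; omega
  rw [hre] at hlim
  refine ⟨by rw [le_div_iff₀ hk']; linarith, ?_⟩
  rw [Finset.sum_range_succ, div_le_div_iff₀ (by positivity) hk']
  push_cast
  nlinarith

end Pool.Agent.Results.MP_134bf7_pr.CesaroMeans
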