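import Pool.Agent.Lib.MP_134bf7_pr.Compactness
import Pool.Agent.Lib.MP_134bf7_pr.Series

namespace Pool.Agent.Results.MP_134bf7_pr.EwensFamily

open Filter Topology Set

/-- The tuple `a` (with `a i` cycles of length `i + 1`) contains a subtuple of total length `k`. -/
def Good {k : ℕ} (a : Fin k → ℕ) : Prop :=
  ∃ a' : Fin k → ℕ, (∀ i, a' i ≤ a i) ∧ ∑ i : Fin k, ((i : ℕ) + 1) * a' i = k

/-- The probability that independent Poisson variables `a i` of means `θ / (i + 1)`, `i < k`, form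
a tuple containing a subtuple of total length `k`. For `θ = 1` this is the formula for `p(k)`. -/
noncomputable def p (θ : ℝ) (k : ℕ) : ℝ :=
  1 - ∑' a : {a : Fin k → ℕ // ¬ Good a}, ∏ i : Fin k,
    Real.exp (-(θ / (((i : ℕ) : ℝ) + 1))) * (θ / (((i : ℕ) : ℝ) + 1)) ^ (a.1 i) /
      ((a.1 i).factorial : ℝ)

/-- The exponent. For `θ = 1` this is the exponent of the problem. -/
noncomputable def alpha (θ : ℝ) : ℝ :=
  θ - (1 + Real.log (Real.log 2) + Real.log θ) / Real.log 2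

/-- The parameters `θ` for which the asymptotic formula holds. -/
def Z : Set ℝ :=
  {θ : ℝ | 0 < θ ∧ ∃ C : ℝ, 0 < C ∧
    Tendsto (fun k : ℕ => p θ k * (k : ℝ) ^ (alpha θ) * (Real.log k) ^ (3 / 2 : ℝ)) atTop (𝓝 C)}

open Pool.Agent.Lib.MP_134bf7_pr.Series Pool.Agent.Lib.MP_134bf7_pr.Winding

/-- the constant `κ` -/
noncomputable def kap : ℝ := (1 + Real.log (Real.log 2)) / Real.log 2

/-- normalisation -/
noncomputable def norm (k : ℕ) : ℝ := (k : ℝ) ^ (-kap) * (Real.log k) ^ (3 / 2 : ℝ)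

/-- the coefficients for `k`, shifted by `j` -/
noncomputable def coef (k j : ℕ) (w : ℤ) : ℝ :=
  ∑' a : {a : {a : Fin k → ℕ // Good a} // ((deg a.1 : ℤ) - j) = w}, norm k * v a.1.1

lemma norm_nonneg {k : ℕ} (hk : 1 ≤ k) : 0 ≤ norm k := by
  have : (1 : ℝ) ≤ k := by exact_mod_cast hk
  have h2 : 0 ≤ Real.log k := Real.log_nonneg this
  unfold norm
  positivity

lemma coef_nonneg {k : ℕ} (hk : 1 ≤ k) (j : ℕ) (w : ℤ) : 0 ≤ coef k j w :=
  tsum_nonneg fun a => mul_nonneg (norm_nonneg hk) (v_nonneg _)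

lemma hasSum_coef {k : ℕ} (hk : 1 ≤ k) (j : ℕ) {θ : ℝ} (hθ : 0 < θ) :
    HasSum (fun w : ℤ => coef k j w * θ ^ w)
      (norm k * (Real.exp (θ * H k) * p θ k) * θ ^ (-(j : ℤ))) := by
  have h1 := hasSum_good (k := k) hθ Good
  have h2 : HasSum (fun a : {a : Fin k → ℕ // Good a} =>
      (norm k * v a.1) * θ ^ ((deg a.1 : ℤ) - j))
      (norm k * (Real.exp (θ * H k) * p θ k) * θ ^ (-(j : ℤ))) := by
    have h3 := (h1.mul_left (norm k)).mul_right (θ ^ (-(j : ℤ)))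
    have h4 : (fun a : {a : Fin k → ℕ // Good a} => (norm k * v a.1) * θ ^ ((deg a.1 : ℤ) - j)) =
        fun a : {a : Fin k → ℕ // Good a} => norm k * (v a.1 * θ ^ (deg a.1)) * θ ^ (-(j : ℤ)) := by
      funext a
      rw [sub_eq_add_neg, zpow_add₀ hθ.ne', zpow_natCast]
      ring
    rw [h4]
    exact h3
  exact regroup _ (fun a => mul_nonneg (norm_nonneg hk) (v_nonneg _))
    (fun a : {a : Fin k → ℕ // Good a} => (deg a.1 : ℤ) - j) hθ h2

/-- the sequence of the problem -/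
noncomputable def fseq (θ : ℝ) (k : ℕ) : ℝ :=
  p θ k * (k : ℝ) ^ (alpha θ) * (Real.log k) ^ (3 / 2 : ℝ)

lemma sum_eq {k : ℕ} (hk : 1 ≤ k) (j : ℕ) (δ : ℝ) (hkj : Real.log k = (j + δ) * Real.log 2)
    {θ : ℝ} (hθ : 0 < θ) :
    norm k * (Real.exp (θ * H k) * p θ k) * θ ^ (-(j : ℤ)) =
      θ ^ δ * (Real.exp (θ * (H k - Real.log k)) * fseq θ k) := by
  have hk0 : (0 : ℝ) < k := by exact_mod_cast hk
  have h2 : Real.log 2 ≠ 0 := (Real.log_pos (by norm_num)).ne'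
  have e1 : (k : ℝ) ^ (alpha θ) = Real.exp (θ * Real.log k) * (k : ℝ) ^ (-kap) *
      θ ^ (-((j : ℝ) + δ)) := by
    rw [Real.rpow_def_of_pos hk0, Real.rpow_def_of_pos hk0, Real.rpow_def_of_pos hθ,
      ← Real.exp_add, ← Real.exp_add]
    congr 1
    rw [alpha, kap, hkj]
    field_simp
    ring
  have e2 : Real.exp (θ * (H k - Real.log k)) * Real.exp (θ * Real.log k) = Real.exp (θ * H k) := by
    rw [← Real.exp_add]; congr 1; ring
  have e3 : θ ^ δ * θ ^ (-((j : ℝ) + δ)) = θ ^ (-(j : ℤ)) := by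
    rw [← Real.rpow_add hθ, ← Real.rpow_intCast]
    congr 1
    push_cast
    ring
  rw [fseq, e1, norm, ← e2, ← e3]
  ring

lemma tendsto_H : Tendsto (fun k : ℕ => H k - Real.log k) atTop
    (𝓝 Real.eulerMascheroniConstant) := by
  have h := Real.tendsto_harmonic_sub_log
  refine h.congr fun k => ?_
  congr 1
  rw [H, harmonic]
  push_cast
  rw [Fin.sum_univ_eq_sum_range (fun i => 1 / ((i : ℝ) + 1)) k]
  refine Finset.sum_congr rfl fun i _ => ?_
  rw [one_div]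

lemma no_acc : ∀ x ∈ Z, ∀ y ∈ Z, ∀ z, x < z → z < y → ¬ AccPt z (𝓟 Z) := by
  intro θ1 hθ1 θ2 hθ2 θ0 h01 h02 hacc
  have hpos : ∀ θ ∈ Z, 0 < θ := fun θ h => h.1
  have h1 : 0 < θ1 := hpos _ hθ1
  have h2 : 0 < θ2 := hpos _ hθ2
  choose! C hC using fun θ (h : θ ∈ Z) => h.2
  set δ : ℝ := Real.log 3 / Real.log 2 with hδ
  have hlog2 : 0 < Real.log 2 := Real.log_pos (by norm_num)
  have hδn : ∀ n : ℤ, δ ≠ n := by
    intro n hn
    have e1 : Real.log 3 = n * Real.log 2 := by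
      rw [← hn, hδ, div_mul_cancel₀ _ hlog2.ne']
    have hlog3 : 0 < Real.log 3 := Real.log_pos (by norm_num)
    have hn0 : (0 : ℝ) < n := by
      by_contra hcon
      push Not at hcon
      nlinarith
    have hn1 : 0 ≤ n := by
      have : (0 : ℤ) < n := by exact_mod_cast hn0
      exact this.le
    lift n to ℕ using hn1
    have e2 : Real.log 3 = Real.log (2 ^ n) := by
      rw [Real.log_pow]; exact_mod_cast e1
    have e3 : (3 : ℝ) = 2 ^ n :=
      Real.log_injOn_pos (Set.mem_Ioi.2 (by norm_num)) (Set.mem_Ioi.2 (by positivity)) e2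
    have e4 : (3 : ℕ) = 2 ^ n := by exact_mod_cast e3
    have hn2 : n ≠ 0 := by rintro rfl; simp at e4
    have : 2 ∣ 3 := by rw [e4]; exact dvd_pow_self 2 hn2
    omega
  -- the two subsequences
  let k1 : ℕ → ℕ := fun j => 2 ^ j
  let k2 : ℕ → ℕ := fun j => 3 * 2 ^ j
  have hk1 : ∀ j, 1 ≤ k1 j := fun j => Nat.one_le_two_pow
  have hk2 : ∀ j, 1 ≤ k2 j := fun j => by
    have : 1 ≤ 2 ^ j := Nat.one_le_two_pow
    show 1 ≤ 3 * 2 ^ j
    omega
  have hl1 : ∀ j : ℕ, Real.log (k1 j) = ((j : ℝ) + 0) * Real.log 2 := by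
    intro j; simp [k1, Real.log_pow]
  have hl2 : ∀ j : ℕ, Real.log (k2 j) = ((j : ℝ) + δ) * Real.log 2 := by
    intro j
    simp only [k2]
    push_cast
    rw [Real.log_mul (by norm_num) (by positivity), Real.log_pow, add_mul, hδ,
      div_mul_cancel₀ _ hlog2.ne']
    ring
  have ht1 : Tendsto k1 atTop atTop := tendsto_pow_atTop_atTop_of_one_lt (by norm_num)
  have ht2 : Tendsto k2 atTop atTop :=
    ht1.const_mul_atTop' (by norm_num : 0 < 3)
  let G : ℕ → ℝ → ℝ := fun j θ => norm (k1 j) * (Real.exp (θ * H (k1 j)) * p θ (k1 j)) *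
    θ ^ (-(j : ℤ))
  let G' : ℕ → ℝ → ℝ := fun j θ => norm (k2 j) * (Real.exp (θ * H (k2 j)) * p θ (k2 j)) *
    θ ^ (-(j : ℤ))
  let D : ℝ → ℝ := fun θ => Real.exp (θ * Real.eulerMascheroniConstant) * C θ
  have hfull : ∀ θ ∈ Z, Tendsto (fun k : ℕ => Real.exp (θ * (H k - Real.log k)) * fseq θ k) atTop
      (𝓝 (D θ)) := by
    intro θ hθ
    refine Tendsto.mul ?_ (hC θ hθ).2
    exact (Real.continuous_exp.tendsto _).comp (tendsto_H.const_mul θ)
  have hlim : ∀ θ ∈ Z, Tendsto (fun j => G j θ) atTop (𝓝 (D θ)) := by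
    intro θ hθ
    have := (hfull θ hθ).comp ht1
    refine this.congr fun j => ?_
    simp only [G, Function.comp]
    rw [sum_eq (hk1 j) j 0 (hl1 j) (hpos θ hθ), Real.rpow_zero, one_mul]
  have hlim' : ∀ θ ∈ Z, Tendsto (fun j => G' j θ) atTop (𝓝 (θ ^ δ * D θ)) := by
    intro θ hθ
    have := ((hfull θ hθ).comp ht2).const_mul (θ ^ δ)
    refine this.congr fun j => ?_
    simp only [G', Function.comp]
    rw [sum_eq (hk2 j) j δ (hl2 j) (hpos θ hθ)]
  have hG : ∀ j, ∀ θ ∈ Z, HasSum (fun w => coef (k1 j) j w * θ ^ w) (G j θ) :=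
    fun j θ hθ => hasSum_coef (hk1 j) j (hpos θ hθ)
  have hG' : ∀ j, ∀ θ ∈ Z, HasSum (fun w => coef (k2 j) j w * θ ^ w) (G' j θ) :=
    fun j θ hθ => hasSum_coef (hk2 j) j (hpos θ hθ)
  obtain ⟨B1, hB1⟩ := (hlim θ1 hθ1).bddAbove_range
  obtain ⟨B2, hB2⟩ := (hlim θ2 hθ2).bddAbove_range
  obtain ⟨B3, hB3⟩ := (hlim' θ1 hθ1).bddAbove_range
  obtain ⟨B4, hB4⟩ := (hlim' θ2 hθ2).bddAbove_range
  set B : ℝ := max (max B1 B2) (max (max B3 B4) 0) with hB
  have q1 : B1 ≤ B := (le_max_left _ _).trans (le_max_left _ _)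
  have q2 : B2 ≤ B := (le_max_right _ _).trans (le_max_left _ _)
  have q3 : B3 ≤ B := ((le_max_left _ _).trans (le_max_left _ _)).trans (le_max_right _ _)
  have q4 : B4 ≤ B := ((le_max_right _ _).trans (le_max_left _ _)).trans (le_max_right _ _)
  have q5 : 0 ≤ B := (le_max_right _ _).trans (le_max_right _ _)
  have hterm : ∀ (c : ℤ → ℝ) (θ S : ℝ), 0 < θ → (∀ w, 0 ≤ c w) →
      HasSum (fun w => c w * θ ^ w) S → ∀ w, c w * θ ^ w ≤ S := by
    intro c θ S hθ hc h w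
    exact le_hasSum h w fun w' _ => mul_nonneg (hc w') (by positivity)
  have hc : ∀ j, Bdd θ1 θ2 B (coef (k1 j) j) := by
    intro j w
    refine ⟨coef_nonneg (hk1 j) j w, ?_, ?_⟩
    · exact ((hterm _ _ _ h1 (coef_nonneg (hk1 j) j) (hG j θ1 hθ1) w).trans
        (hB1 ⟨j, rfl⟩)).trans q1
    · exact ((hterm _ _ _ h2 (coef_nonneg (hk1 j) j) (hG j θ2 hθ2) w).trans
        (hB2 ⟨j, rfl⟩)).trans q2
  have hc' : ∀ j, Bdd θ1 θ2 B (coef (k2 j) j) := by
    intro j w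
    refine ⟨coef_nonneg (hk2 j) j w, ?_, ?_⟩
    · exact ((hterm _ _ _ h1 (coef_nonneg (hk2 j) j) (hG' j θ1 hθ1) w).trans
        (hB3 ⟨j, rfl⟩)).trans q3
    · exact ((hterm _ _ _ h2 (coef_nonneg (hk2 j) j) (hG' j θ2 hθ2) w).trans
        (hB4 ⟨j, rfl⟩)).trans q4
  refine core hc hc' h1 (h01.trans h02) q5 δ hδn Z D ?_ G G' hG hG' hlim hlim' θ0 h01 h02 hacc
  intro θ hθ
  have := (hC θ hθ).1
  simp only [D]
  positivity

theorem result : Z.Countable ∧ ∀ x ∈ Z, ∀ y ∈ Z, ∀ z, x < z → z < y → ¬ AccPt z (𝓟 Z) :=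
  ⟨countable_of_isolated Z no_acc, no_acc⟩

end Pool.Agent.Results.MP_134bf7_pr.EwensFamily
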