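import Pool.Agent.Lib.MP_134bf7_pr.FC.F

namespace Pool.Agent.Results.MP_134bf7_pr.FirstComparisons

open Filter Topology

/-- The probability that a uniformly random permutation of `n` points fixes a `k`-set. -/
noncomputable def prob (n k : ℕ) : ℝ :=
  (Fintype.card {σ : Equiv.Perm (Fin n) // ∃ S : Finset (Fin n), S.card = k ∧ S.image σ = S} : ℝ) /
    n.factorial

theorem result (p : ℕ → ℝ) (hp : ∀ k, Tendsto (fun n => prob n k) atTop (𝓝 (p k))) :
    ∀ j k : ℕ, 1 ≤ j → j ≤ 10 → j < k → p k < p j := by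
  have he : ∀ k, p k = Pool.Agent.Lib.MP_134bf7_pr.RL.p k := fun k =>
    tendsto_nhds_unique (hp k) (Pool.Agent.Lib.MP_134bf7_pr.RL.prob_tendsto k)
  intro j k h1 h2 h3
  rw [he, he]
  exact Pool.Agent.Lib.MP_134bf7_pr.FC.first j k h1 h2 h3

end Pool.Agent.Results.MP_134bf7_pr.FirstComparisons
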