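import Pool.Agent.Lib.MP_134bf7_pr.RL.AsC
import Pool.Agent.Lib.MP_134bf7_pr.RL.LiE

namespace Pool.Agent.Results.MP_134bf7_pr.LocalRegularity

open Filter Topology

/-- The probability that a uniformly random permutation `σ` of `n` points fixes a `k`-set: there is a
set `S` of `k` points with `σ(S) = S`. -/
noncomputable def prob (n k : ℕ) : ℝ :=
  (Fintype.card {σ : Equiv.Perm (Fin n) // ∃ S : Finset (Fin n), S.card = k ∧ S.image σ = S} : ℝ) /
    n.factorial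

/-- `p k` is the limit of `prob n k` as `n → ∞` (it exists by the first part of `result`). -/
noncomputable def p (k : ℕ) : ℝ := limUnder atTop fun n => prob n k

theorem result :
    (∀ k : ℕ, Tendsto (fun n => prob n k) atTop (𝓝 (p k))) ∧
    (∀ ε : ℝ, 0 < ε → ∀ κ : ℝ, 0 < κ → ∃ k₀ : ℕ, ∀ k : ℕ, k₀ ≤ k → 0 < p k ∧
      ∀ h : ℕ, (h : ℝ) ≤ (k : ℝ) ^ (1 - ε) → |p (k + h) / p k - 1| ≤ κ) := by
  have hlim : ∀ k, Tendsto (fun n => prob n k) atTop
      (𝓝 (Pool.Agent.Lib.MP_134bf7_pr.RL.p k)) := fun k =>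
    Pool.Agent.Lib.MP_134bf7_pr.RL.prob_tendsto k
  have hp : ∀ k, p k = Pool.Agent.Lib.MP_134bf7_pr.RL.p k := fun k => (hlim k).limUnder_eq
  refine ⟨fun k => by rw [hp]; exact hlim k, fun ε hε κ hκ => ?_⟩
  obtain ⟨k0, hk0⟩ := eventually_atTop.1 ((Pool.Agent.Lib.MP_134bf7_pr.RL.main ε κ hε hκ).and
    ((Pool.Agent.Lib.MP_134bf7_pr.RL.lower 1 one_pos).and (eventually_ge_atTop 1)))
  refine ⟨k0, fun k hk => ?_⟩
  obtain ⟨h1, h2, h3⟩ := hk0 k hk
  refine ⟨?_, fun h hh => ?_⟩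
  · rw [hp]
    refine lt_of_lt_of_le (Real.rpow_pos_of_pos ?_ _) h2
    exact_mod_cast h3
  · rw [hp, hp]
    exact h1 h hh

end Pool.Agent.Results.MP_134bf7_pr.LocalRegularity
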